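import Mathlib
import Pool.Agent.H534.NW.GoldW

/-!
# Almost prime pairs `N ^ 2 + j + 1`, `(N + 1) ^ 2 - j` between consecutive squares, for every `N`, at all the
# places of every narrow shape

For every large `N` there are at least as many `2 ≤ j ≤ 2 N` as expected, up to a constant, for which both
`N ^ 2 + j + 1` and `(N + 1) ^ 2 - j` are almost primes; and every subset of positive relative density of the set
of these `j` contains constellations of every shape: for arbitrary distinct `b_1, ..., b_k` and a positive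
proportion of the multiples `D = W d`, `d ≤ X`, of a small modulus `W` which depends on the shape, for all `X`
between a power of `log L` and `(L / (W b_i)) ^ (1 / 3)`, where `L = 2 N - 1` is the number of the `j`, all the
`k + 1` numbers `j, j + D b_1, ..., j + D b_k` belong to it, for many `j`.  Hence the same is true for the prime
pairs of the problem if there are as many of them as expected; and it is also true for the representations of every
even number as the sum of two almost primes, one of which is in a given interval, with members up to any power of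
the length of the interval.

The modulus `W = WS σ b L` is the product of the primes `p ≤ (log L) ^ (1 - σ)` such that `p ≤ log log L` or two
of the numbers `0, b_1, ..., b_k` are congruent modulo `p`; it is always `L ^ o(1)`, and for fixed `b` a bounded
power of `log L`.

Proof.  The relative multidimensional Szemerédi theorem for shapes of polynomial size and narrow differences
(`Pool.Agent.H534.NW`), uniform in systems of linear forms with coefficients up to a power of the length, and a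
lower bound sieve of the library.
-/

set_option autoImplicit false

open Finset Filter

namespace Pool.Agent.Results.MP_e94e4b_nt.EveryShapeBetweenSquares

open Pool.Agent.H534.NW (WS ShapesV)

/-- The twin prime constant: the infimum (the limit) of the decreasing products of `1 - 1 / (p - 1) ^ 2`
over the primes `3 ≤ p ≤ z`. -/
noncomputable def C₂ : ℝ := ⨅ z : ℕ, ∏ p ∈ (Finset.Icc 3 z).filter Nat.Prime, (1 - 1 / ((p : ℝ) - 1) ^ 2)

/-- Goldbach's singular series `2 C₂ ∏_{p ∣ M, p > 2} (p - 1) / (p - 2)`. -/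
noncomputable def 𝔖 (M : ℕ) : ℝ :=
  2 * C₂ * ∏ p ∈ M.primeFactors.filter (fun p => 2 < p), ((p : ℝ) - 1) / ((p : ℝ) - 2)

/-- All prime factors of `n` are larger than `y`. -/
def Rough (y : ℝ) (n : ℕ) : Prop := ∀ q : ℕ, q.Prime → q ∣ n → y < (q : ℝ)

/-- the number of the `j`, `2 ≤ j ≤ 2 N` -/
def L (N : ℕ) : ℕ := 2 * N - 1

/-- the sum of `N ^ 2 + j + 1` and `(N + 1) ^ 2 - j` -/
def M (N : ℕ) : ℕ := 2 * N ^ 2 + 2 * N + 2

open Classical in
/-- the `2 ≤ j ≤ 2 N` for which `N ^ 2 + j + 1` and `(N + 1) ^ 2 - j` have at most `R` prime factors, all `> y` -/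
noncomputable def Pairs (N R : ℕ) (y : ℝ) : Finset ℕ :=
  (Icc 2 (2 * N)).filter (fun j => ∀ n : ℕ, (n = N ^ 2 + j + 1 ∨ n = (N + 1) ^ 2 - j) →
    n.primeFactorsList.length ≤ R ∧ Rough y n)

open Classical in
/-- the `n` in `(Y, Y + H]` for which `n` and `M - n` have at most `R` prime factors, all `> y` -/
noncomputable def Summands (M Y H R : ℕ) (y : ℝ) : Finset ℕ :=
  (Ioc Y (Y + H)).filter (fun n => ∀ u : ℕ, (u = n ∨ u = M - n) → u.primeFactorsList.length ≤ R ∧ Rough y u)

lemma M_sub (N j : ℕ) (hj : j ≤ 2 * N) : M N - (N ^ 2 + j + 1) = (N + 1) ^ 2 - j := by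
  unfold M
  have e : (N + 1) ^ 2 = N ^ 2 + 2 * N + 1 := by ring
  rw [e]
  omega

/-- **Every `N`, every narrow shape.** Let `k ≥ 1` and `κ > 0`; the constants `c > 0`, `0 < σ ≤ 1 / 2` and `K` do
not depend on `N` (in (3): on `M`, `Y`) nor on the sets.  Let `L = 2 N - 1` and `M = 2 N ^ 2 + 2 N + 2`.
`ShapesV k v c σ K H A` means: for all `X ≥ (log H) ^ K` and ALL distinct `b_1, ..., b_k ≥ 1` with
`b_i W X ^ 3 ≤ H`, where `W = WS σ b H`, at least `c X` of the `d ≤ X` are such that with `D = W d` at least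
`c H v ^ (k + 1)` elements `j` of `A` have `j + D b_1, ..., j + D b_k` in `A`.
(1) For every large `N` every set `A` of at least `κ 𝔖(M) L / (log L) ^ 2` integers `2 ≤ j ≤ 2 N` such that
`N ^ 2 + j + 1` and `(N + 1) ^ 2 - j` have no prime factor `≤ L ^ η` has the property
`ShapesV k (𝔖(M) / (log L) ^ 2) c σ K L`.
(2) For large `r` and large `N` every subset of relative density `≥ κ` of the set of the `2 ≤ j ≤ 2 N` for which
`N ^ 2 + j + 1` and `(N + 1) ^ 2 - j` have at most `2 r` prime factors, all larger than `L ^ (1 / r)`, has this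
property.
(3) For large `r` and large `H`, for all even `M ≤ H ^ E` and all intervals `(Y, Y + H]` with `H ≤ Y`, `Y + H < M`,
every subset of relative density `≥ κ` of the set of the `n` in `(Y, Y + H]` for which `n` and `M - n` have at most
`E r` prime factors, all larger than `H ^ (1 / r)`, has this property (with `H` for `L`). -/
theorem result :
    (∀ (k : ℕ) (η κ : ℝ), 1 ≤ k → 0 < η → 0 < κ → ∃ c σ : ℝ, 0 < c ∧ 0 < σ ∧ σ ≤ 1 / 2 ∧ ∃ K N₀ : ℕ,
      ∀ (N : ℕ) (A : Finset ℕ), N₀ ≤ N → A ⊆ Icc 2 (2 * N) →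
      (∀ j ∈ A, Rough ((L N : ℝ) ^ η) (N ^ 2 + j + 1) ∧ Rough ((L N : ℝ) ^ η) ((N + 1) ^ 2 - j)) →
      κ * (𝔖 (M N) * (L N / Real.log (L N) ^ 2)) ≤ A.card →
      ShapesV k (𝔖 (M N) / Real.log (L N) ^ 2) c σ K (L N) A) ∧
    (∃ r₀ : ℕ, 2 ≤ r₀ ∧ ∀ r : ℕ, r₀ ≤ r → ∀ (k : ℕ) (κ : ℝ), 1 ≤ k → 0 < κ →
      ∃ c σ : ℝ, 0 < c ∧ 0 < σ ∧ σ ≤ 1 / 2 ∧ ∃ K : ℕ, ∀ᶠ N : ℕ in atTop,
      ∀ A ⊆ Pairs N (2 * r) ((L N : ℝ) ^ (1 / (r : ℝ))),
      κ * ((Pairs N (2 * r) ((L N : ℝ) ^ (1 / (r : ℝ)))).card : ℝ) ≤ A.card →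
      ShapesV k (𝔖 (M N) / Real.log (L N) ^ 2) c σ K (L N) A) ∧
    (∃ r₀ : ℕ, 2 ≤ r₀ ∧ ∀ r : ℕ, r₀ ≤ r → ∀ (k E : ℕ) (κ : ℝ), 1 ≤ k → 1 ≤ E → 0 < κ →
      ∃ c σ : ℝ, 0 < c ∧ 0 < σ ∧ σ ≤ 1 / 2 ∧ ∃ K : ℕ, ∀ᶠ H : ℕ in atTop,
      ∀ M Y : ℕ, Even M → H ≤ Y → Y + H < M → M ≤ H ^ E →
      ∀ A ⊆ Summands M Y H (E * r) ((H : ℝ) ^ (1 / (r : ℝ))),
      κ * ((Summands M Y H (E * r) ((H : ℝ) ^ (1 / (r : ℝ)))).card : ℝ) ≤ A.card →
      ShapesV k (𝔖 M / Real.log H ^ 2) c σ K H A) := by
  classical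
  have hSG : ∀ n : ℕ, 𝔖 n = Pool.Agent.Q236.GW.SG n := fun _ => rfl
  have hMev : ∀ N, Even (M N) := fun N => ⟨N ^ 2 + N + 1, by unfold M; ring⟩
  have hLt : Tendsto (fun N : ℕ => L N) atTop atTop := by
    apply tendsto_atTop_atTop.2
    intro b
    exact ⟨b + 1, fun n hn => by unfold L; omega⟩
  have hML : ∀ N, 4 ≤ N → M N ≤ L N ^ 2 := by
    intro N hN
    unfold M L
    obtain ⟨t, rfl⟩ : ∃ t, N = t + 4 := ⟨N - 4, by omega⟩
    have e : 2 * (t + 4) - 1 = 2 * t + 7 := by omega
    rw [e]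
    nlinarith
  have hcardI : ∀ (A : Finset ℕ) (u : ℕ), (A.image (fun n => n + u)).card = A.card := by
    intro A u
    apply card_image_of_injective
    intro a b hab
    simp only at hab
    omega
  refine ⟨fun k η κ hk hη hκ => ?_, ?_, ?_⟩
  · obtain ⟨c, σm, hc, hσm, hσm2, h⟩ := Pool.Agent.H534.NW.goldAW k 2 η κ hk (by norm_num) hη hκ
    obtain ⟨K, H₀, h⟩ := h σm hσm le_rfl
    refine ⟨c, σm, hc, hσm, hσm2, K, H₀ + 4, fun N A hN hA hAr hAc => ?_⟩
    have hN4 : 4 ≤ N := by omega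
    have hL0 : H₀ ≤ L N := by unfold L; omega
    apply Pool.Agent.H534.NW.ShapesV.shift (N ^ 2 + 1)
    rw [hSG] at hAc ⊢
    refine h (M N) (N ^ 2 + 2) (L N) _ hL0 (hMev N) (by unfold M L; omega) (hML N hN4)
      (by
        intro n hn
        obtain ⟨j, hj, rfl⟩ := mem_image.1 hn
        have := mem_Icc.1 (hA hj)
        rw [mem_Ioc]
        unfold L
        omega)
      (by
        intro n hn p hp hpH
        obtain ⟨j, hj, rfl⟩ := mem_image.1 hn
        obtain ⟨h1, h2⟩ := hAr j hj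
        have hj2 := (mem_Icc.1 (hA hj)).2
        have e : j + (N ^ 2 + 1) = N ^ 2 + j + 1 := by ring
        rw [e]
        refine ⟨fun hd => ?_, fun hd => ?_⟩
        · have := h1 p hp hd
          linarith
        · rw [M_sub N j hj2] at hd
          have := h2 p hp hd
          linarith)
      (by rw [hcardI]; exact hAc)
  · obtain ⟨r₀, hr₀, h⟩ := Pool.Agent.H534.NW.goldSW
    refine ⟨r₀, hr₀, fun r hr k κ hk hκ => ?_⟩
    obtain ⟨c, σm, hc, hσm, hσm2, h1⟩ := h r hr k 2 κ hk (by norm_num) hκ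
    obtain ⟨K, h1⟩ := h1 σm hσm le_rfl
    refine ⟨c, σm, hc, hσm, hσm2, K, ?_⟩
    filter_upwards [hLt.eventually h1, eventually_ge_atTop 4,
      hLt.eventually (Pool.Agent.H534.RT.len_ev 2 r (by norm_num) (by omega))] with N h2 hN4 h3 A hA hAc
    have h2N : 2 * N ≤ N ^ 2 := by nlinarith
    have e0 : Pool.Agent.H534.RT.GS (M N) (N ^ 2 + 2) (L N) r =
        (Pairs N (2 * r) ((L N : ℝ) ^ (1 / (r : ℝ)))).image (fun n => n + (N ^ 2 + 1)) := by
      ext y
      unfold Pool.Agent.H534.RT.GS Pairs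
      rw [mem_filter, mem_Ioc, mem_image]
      constructor
      · rintro ⟨⟨hy1, hy2⟩, hy3⟩
        have hyL : y ≤ N ^ 2 + 2 * N + 1 := by unfold L at hy2; omega
        obtain ⟨j, hj⟩ : ∃ j, y = j + (N ^ 2 + 1) := ⟨y - (N ^ 2 + 1), by omega⟩
        have hj2 : 2 ≤ j ∧ j ≤ 2 * N := by omega
        refine ⟨j, ?_, hj.symm⟩
        rw [mem_filter, mem_Icc]
        refine ⟨hj2, fun n hn => ?_⟩
        have hn' : n = y ∨ n = M N - y := by
          rcases hn with hn | hn
          · left; omega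
          · right
            rw [hn, ← M_sub N j hj2.2, hj]
            congr 1
            ring
        have hML' := hML N hN4
        have hr' : Rough ((L N : ℝ) ^ (1 / (r : ℝ))) n := by
          intro q hq hd
          rcases hn' with rfl | rfl
          · exact hy3 q hq (Or.inl hd)
          · exact hy3 q hq (Or.inr hd)
        refine ⟨h3 n ?_ ?_ hr', hr'⟩
        · rcases hn' with rfl | rfl
          · omega
          · unfold M; omega
        · unfold M at hML' hn'
          rcases hn' with rfl | rfl <;> omega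
      · rintro ⟨j, hj, rfl⟩
        rw [mem_filter, mem_Icc] at hj
        obtain ⟨hj1, hj2⟩ := hj
        refine ⟨by unfold L; omega, fun q hq hd => ?_⟩
        rcases hd with hd | hd
        · exact (hj2 (N ^ 2 + j + 1) (Or.inl rfl)).2 q hq (by
            have e : j + (N ^ 2 + 1) = N ^ 2 + j + 1 := by ring
            rwa [e] at hd)
        · exact (hj2 ((N + 1) ^ 2 - j) (Or.inr rfl)).2 q hq (by
            have e : j + (N ^ 2 + 1) = N ^ 2 + j + 1 := by ring
            rwa [e, M_sub N j hj1.2] at hd)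
    apply Pool.Agent.H534.NW.ShapesV.shift (N ^ 2 + 1)
    rw [hSG]
    refine h2 (M N) (N ^ 2 + 2) (hMev N) (by unfold L; omega) (by unfold M L; omega) (hML N hN4) _ ?_ ?_
    · rw [e0]
      exact image_subset_image hA
    · rw [e0, hcardI, hcardI]
      exact hAc
  · obtain ⟨r₀, hr₀, h⟩ := Pool.Agent.H534.NW.goldSW
    refine ⟨r₀, hr₀, fun r hr k E κ hk hE hκ => ?_⟩
    obtain ⟨c, σm, hc, hσm, hσm2, h1⟩ := h r hr k E κ hk hE hκ
    obtain ⟨K, h1⟩ := h1 σm hσm le_rfl
    refine ⟨c, σm, hc, hσm, hσm2, K, ?_⟩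
    filter_upwards [h1, eventually_ge_atTop 1, Pool.Agent.H534.RT.len_ev E r hE (by omega)]
      with H h2 hH1 h3 M Y hM hHY hYM hME A hA hAc
    have e0 : Pool.Agent.H534.RT.GS M Y H r = Summands M Y H (E * r) ((H : ℝ) ^ (1 / (r : ℝ))) := by
      ext y
      unfold Pool.Agent.H534.RT.GS Summands
      rw [mem_filter, mem_filter, mem_Ioc]
      constructor
      · rintro ⟨⟨hy1, hy2⟩, hy3⟩
        refine ⟨⟨hy1, hy2⟩, fun u hu => ?_⟩
        have hr' : Rough ((H : ℝ) ^ (1 / (r : ℝ))) u := by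
          intro q hq hd
          rcases hu with rfl | rfl
          · exact hy3 q hq (Or.inl hd)
          · exact hy3 q hq (Or.inr hd)
        refine ⟨h3 u ?_ ?_ hr', hr'⟩
        · rcases hu with rfl | rfl <;> omega
        · rcases hu with rfl | rfl <;> omega
      · rintro ⟨hy1, hy2⟩
        refine ⟨hy1, fun q hq hd => ?_⟩
        rcases hd with hd | hd
        · exact (hy2 y (Or.inl rfl)).2 q hq hd
        · exact (hy2 (M - y) (Or.inr rfl)).2 q hq hd
    rw [← e0] at hA hAc
    exact h2 M Y hM hHY hYM hME A hA hAc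

end Pool.Agent.Results.MP_e94e4b_nt.EveryShapeBetweenSquares
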