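import Mathlib
import Pool.Agent.H542.NS.Final
import Pool.Agent.H542.NS.Cnt
import Pool.Agent.H985.Cor.Base

/-!
# Tuples without small prime factors and with prescribed parities near every square

`K` is a finite field with an even number `q` of elements. For every `k ≥ 2` and `ε > 0`, all large `h`, all
large `m ≤ κ h`, EVERY monic `A` of degree at least `h / 2`, all admissible `k`-tuples of distinct shifts
`α_i` of degree `< 2 ⌊h / 2⌋` and all signs `σ_i` the number of the `F` with `deg (F - A²) < h` such that no
`F + α_i` has an irreducible factor of degree at most `m` and `μ (F + α_i) = σ_i` for all `i` is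
`(2 ^ (-k) + O(ε)) q ^ h V`, where `V`, the product of the `1 - ω(P) / |P|` over the irreducible `P` of
degree at most `m`, is at least `c / m ^ k`. In particular (`k = 2`, `m = κ h`) there are `≫ q ^ h / h ^ 2`
pairs `F`, `G` of almost primes with given sum `F + G = S` and given parities of the numbers of prime
factors in the interval.

Idea. `F = (A + x)² + X y²`, `deg x, deg y < h / 2`. For typical fixed `y` the Möbius function of the
`F + α_i` is, as a function of `x`, a product of functions modulo the squares of the prime divisors of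
the `y + t_i` and of a phase at infinity, which is additive in `x` since `deg y < deg A` (helper560,
helper524, helper740, helper969, helper980: `S_winI`). The rest is the method of
`MP_8923e7_nt.ParityEvenCharacteristic` (helper985, 604, 524, 183, 675, 996, 627, 233, 225).

The case `k = 1` is `MP_a8fbd7_nt.ParityAsymptoticsAtSquares` (helper560).

Authors of the parts of this project (statements, intervals of all lengths, final theorems: helper542):
product formula with square divisors: helper289; window bound: helper618; typical fibre: helper213;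
parity in sifted sets: helper276; number of sifted elements: helper769.
-/

namespace Pool.Agent.Results.MP_e94e4b_nt.TuplesNearSquaresEvenChar

open Polynomial

open Classical in
/-- The Möbius function of `K[X]`: `(-1) ^ k` if `F` is a nonzero constant times a product of `k`
distinct monic irreducible polynomials, and `0` for all other `F`. -/
noncomputable def moebius {K : Type} [Field K] (F : K[X]) : ℤ :=
  if Squarefree F then (-1) ^ Multiset.card (UniqueFactorizationMonoid.factors F) else 0

/-- The tuple `α` is admissible: for every irreducible `P` some `x` is such that `P` divides none of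
the `x + α i`. -/
def Admissible {K : Type} [Field K] {k : ℕ} (α : Fin k → K[X]) : Prop :=
  ∀ P : K[X], P.Monic → Irreducible P → ∃ x : K[X], ∀ i, ¬ P ∣ x + α i

/-- The monic irreducible polynomials of degree at most `m`. -/
def primesUpTo (K : Type) [Field K] (m : ℕ) : Set K[X] :=
  {P | P.Monic ∧ Irreducible P ∧ P.natDegree ≤ m}

/-- The number of the residue classes modulo `P` of the `α i`. -/
noncomputable def numClasses {K : Type} [Field K] {k : ℕ} (α : Fin k → K[X]) (P : K[X]) : ℕ :=
  (Set.range fun i => α i %ₘ P).ncard

/-- The product of `1 - ω(P) / |P|` over the primes of degree at most `m`. -/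
noncomputable def density {K : Type} [Field K] [Fintype K] {k : ℕ} (α : Fin k → K[X]) (m : ℕ) : ℝ :=
  ∏ᶠ P ∈ primesUpTo K m, (1 - (numClasses α P : ℝ) / (Fintype.card K : ℝ) ^ P.natDegree)

/-- The `F` with `deg (F - A²) < h` such that no `F + α i` has an irreducible factor of degree at most
`m`. -/
def Sifted {K : Type} [Field K] {k : ℕ} (A : K[X]) (α : Fin k → K[X]) (h m : ℕ) : Set K[X] :=
  {F | (F - A ^ 2).degree < (h : WithBot ℕ) ∧
    ∀ i, ∀ P : K[X], P.Monic → Irreducible P → P ∣ F + α i → m < P.natDegree}

theorem density_eq {K : Type} [Field K] [Fintype K] [CharP K 2] {k : ℕ} (α : Fin k → K[X])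
    (m : ℕ) : density α m = Pool.Agent.H542.NS.VV α m := by
  classical
  unfold density Pool.Agent.H542.NS.VV
  have h1 : primesUpTo K m = ((Pool.Agent.H694.Typ.PU K m : Finset K[X]) : Set K[X]) := by
    ext P
    rw [Finset.mem_coe, Pool.Agent.H694.Typ.mem_PU]
    rfl
  rw [h1, finprod_mem_coe_finset]
  refine Finset.prod_congr rfl fun P _ => ?_
  have h2 : (Set.range fun i => α i %ₘ P) = ((Pool.Agent.H996.Par.Om α P : Finset K[X]) : Set K[X]) := by
    unfold Pool.Agent.H996.Par.Om
    rw [Finset.coe_image, Finset.coe_univ, Set.image_univ]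
    have e : ∀ i, -α i = α i := fun i => CharTwo.neg_eq (α i)
    simp only [e]
  unfold numClasses
  rw [h2, Set.ncard_coe_finset]

/-- **Tuples without small prime factors and with prescribed parities near every square:
asymptotic number.** -/
theorem result (K : Type) [Field K] [Fintype K] (hK : Even (Fintype.card K)) (k : ℕ) (_hk : 2 ≤ k) :
    ∃ c : ℝ, 0 < c ∧ ∀ ε : ℝ, 0 < ε →
    ∃ κ : ℝ, 0 < κ ∧ ∃ M H : ℕ, ∀ h m : ℕ, H ≤ h → M ≤ m → (m : ℝ) ≤ κ * h →
      ∀ A : K[X], A.Monic → h ≤ 2 * A.natDegree →
      ∀ α : Fin k → K[X], Function.Injective α → (∀ i, (α i).natDegree < 2 * (h / 2)) →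
      Admissible α → ∀ σ : Fin k → ℤ, (∀ i, σ i = 1 ∨ σ i = -1) →
        c / (m : ℝ) ^ k ≤ density α m ∧
        |({F ∈ Sifted A α h m | ∀ i, moebius (F + α i) = σ i}.ncard : ℝ) -
          density α m * (Fintype.card K : ℝ) ^ h / 2 ^ k| ≤
            ε * (density α m * (Fintype.card K : ℝ) ^ h) := by
  have := Pool.Agent.H985.Cor.charTwo_of_even hK
  obtain ⟨c, hc, h0⟩ := Pool.Agent.H542.NS.cntH Pool.Agent.H985.Par.s_sw
    Pool.Agent.H542.NS.s_parI Pool.Agent.H542.NS.s_lowI K k
  refine ⟨c, hc, fun ε hε => ?_⟩
  obtain ⟨κ, hκ, M, H, h1⟩ := h0 ε hε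
  refine ⟨κ, hκ, M, H, fun h m hh hm hmκ A hA hd α hα hdeg hadm σ hσ => ?_⟩
  rw [density_eq]
  exact h1 h m hh hm hmκ A hA hd α hα hdeg hadm σ hσ

end Pool.Agent.Results.MP_e94e4b_nt.TuplesNearSquaresEvenChar
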